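import Pool.Agent.W425.GN.Defs3
import Pool.Agent.W311.GN.B2

set_option autoImplicit false

/-! Project GN, part B2L (helper168, for helper425; adapted from W311.GN.B2 by helper311): the roots of the local
`b`-functions, special fibre. -/

namespace Pool.Agent.W168.GN

open MvPolynomial Pool.Agent.H628R4.TP Pool.Agent.W425.GN

/-- Part B2L. -/
theorem b2l : TaskB2L := by
  intro hA1 hA3 n f b hF α m hbad
  by_contra hdiv
  apply hbad
  obtain ⟨w, P, hw, hP⟩ := hF
  have hb0 : b ≠ 0 := by
    rintro rfl
    exact hdiv (dvd_zero _)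
  have hk : b.rootMultiplicity α ≤ m := by
    by_contra hlt
    push Not at hlt
    exact hdiv ((pow_dvd_pow _ (by omega)).trans (Polynomial.pow_rootMultiplicity_dvd b α))
  obtain ⟨c, hc, hc2⟩ := Polynomial.exists_eq_pow_rootMultiplicity_mul_and_not_dvd b hb0 α
  generalize b.rootMultiplicity α = k at hk hc
  have hcop : IsCoprime c (Polynomial.X - Polynomial.C α) := by
    have hirr : Irreducible (Polynomial.X - Polynomial.C α) := Polynomial.irreducible_X_sub_C α
    exact ((hirr.coprime_iff_not_dvd).2 hc2).symm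
  obtain ⟨u, t, hut⟩ := hcop
  obtain ⟨P', hP'⟩ := Pool.Agent.W311.GN.exists_mul hA1 P
    (u * (Polynomial.X - Polynomial.C α) ^ (m - k))
  refine ⟨w, P', sy (t.map C * Polynomial.C w), 0, hw, fun s _ => ?_⟩
  have h4 := (hA3 (n := n) (R := ℂ)).2.2.2.1 (t.map C * Polynomial.C w) s (f ^ s)
  have h5 : (t.map C * Polynomial.C w).eval (s : MvPolynomial (Fin n) ℂ) =
      C (t.eval (s : ℂ)) * w := by
    have : (s : MvPolynomial (Fin n) ℂ) = C (s : ℂ) := by simp
    rw [Polynomial.eval_mul, Polynomial.eval_C, this, Polynomial.eval_map,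
      Polynomial.eval₂_at_apply]
  rw [h4, h5, hP', ← hP s]
  have h6 : ((s : ℂ) - α) ^ m =
      (u * (Polynomial.X - Polynomial.C α) ^ (m - k)).eval (s : ℂ) * b.eval (s : ℂ)
        + ((s : ℂ) - α) ^ (m + 1) * t.eval (s : ℂ) := by
    have h7 : (u * (Polynomial.X - Polynomial.C α) ^ (m - k)) * b =
        (Polynomial.X - Polynomial.C α) ^ m * (u * c) := by
      rw [hc]
      have : (Polynomial.X - Polynomial.C α) ^ m =
          (Polynomial.X - Polynomial.C α) ^ (m - k) *
            (Polynomial.X - Polynomial.C α) ^ k := by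
        rw [← pow_add]; congr 1; omega
      rw [this]
      ring
    have h8 := congrArg (Polynomial.eval (s : ℂ)) h7
    have h9 := congrArg (Polynomial.eval (s : ℂ)) hut
    simp only [Polynomial.eval_mul, Polynomial.eval_pow, Polynomial.eval_sub, Polynomial.eval_X,
      Polynomial.eval_C, Polynomial.eval_add, Polynomial.eval_one] at h8 h9 ⊢
    rw [h8]
    have : Polynomial.eval (s : ℂ) u * Polynomial.eval (s : ℂ) c =
      1 - Polynomial.eval (s : ℂ) t * ((s : ℂ) - α) := by
      rw [← h9]; ring
    rw [this]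
    ring
  rw [h6, C_add, C_mul, C_mul]
  ring

end Pool.Agent.W168.GN
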